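import Pool.Agent.Helper69.HFTab

set_option autoImplicit false
set_option maxRecDepth 100000

namespace Pool.Agent.Helper69.HF

/-- index of an edge -/
def eN (a b : Nat) : Nat := 14 * min a b + max a b

/-- list of uncovered vertices -/
def avN (a b c : Nat) : List Nat :=
  (List.range 14).filter (fun x => Nat.ble 2 x && Nat.ble x 12 && !(Nat.beq x a || Nat.beq x b || Nat.beq x c))

def chk1 (a b c : Nat) : Bool :=
  Nat.beq (cnt 4 (avN a b c) [14*b+c, 14+a, 13]
    (newW (14*b+c) [14+a,13] + newW (14+a) [13])) 54

/-- condition of the cases to be checked -/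
def condC (a b c : Nat) : Bool :=
  Nat.ble 2 a && Nat.ble 2 b && !(Nat.beq a b) && !(Nat.beq a c) && Nat.blt b c

theorem checkAll : ((List.range 13).all fun a => (List.range 13).all fun b => (List.range 13).all fun c =>
    !(condC a b c) || chk1 a b c) = true := by decide +kernel

theorem symAll : ((List.range 196).all fun i => (List.range 196).all fun j =>
    Nat.beq (wN i j) (wN j i)) = true := by decide +kernel

theorem diagAll : ((List.range 196).all fun i => Nat.beq (wN i i) 0) = true := by decide +kernel

/-- lookup -/
def nth (l : List Nat) (i : Nat) : Nat := l.getD i 0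

/-- invariance test -/
def invT (g : List Nat) : Bool :=
  (List.range 14).all fun a => (List.range 14).all fun b => Nat.blt b a ||
    ((List.range 14).all fun c => (List.range 14).all fun d => Nat.blt d c ||
      Nat.beq (wN (eN (nth g a) (nth g b)) (eN (nth g c) (nth g d))) (wN (eN a b) (eN c d)))

def gT : List Nat := [1,2,3,4,5,6,7,8,9,10,11,12,0,13]
def gD : List Nat := [0,2,4,6,8,10,12,1,3,5,7,9,11,13]
def gS : List Nat := [13,1,7,9,10,8,11,2,5,3,4,6,12,0]

theorem invT_T : invT gT = true := by decide +kernel
theorem invT_D : invT gD = true := by decide +kernel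
theorem invT_S : invT gS = true := by decide +kernel

end Pool.Agent.Helper69.HF
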