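import Pool.Agent.Helper69.HFCheck

set_option autoImplicit false

open Finset

namespace Pool.Agent.Helper69.HF

abbrev V := Fin 14

lemma eN_comm (a b : ℕ) : eN a b = eN b a := by simp [eN, min_comm, max_comm]

/-- index of an edge -/
def eidx (e : Sym2 V) : ℕ := Sym2.lift ⟨fun a b => eN a.val b.val, fun _ _ => eN_comm _ _⟩ e

lemma eidx_mk (a b : V) : eidx s(a, b) = eN a.val b.val := rfl

lemma eN_lt (a b : V) : eN a.val b.val < 196 := by
  unfold eN; have := a.2; have := b.2; omega

lemma eidx_lt (e : Sym2 V) : eidx e < 196 := by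
  induction e using Sym2.ind with
  | _ a b => exact eN_lt a b

/-- weight of a pair of edges -/
def w (e f : Sym2 V) : ℕ := wN (eidx e) (eidx f)

lemma w_symm (e f : Sym2 V) : w e f = w f e := by
  have h := symAll
  rw [List.all_eq_true] at h
  have h1 := h (eidx e) (List.mem_range.2 (eidx_lt e))
  rw [List.all_eq_true] at h1
  have h2 := h1 (eidx f) (List.mem_range.2 (eidx_lt f))
  exact Nat.eq_of_beq_eq_true h2

lemma w_self (e : Sym2 V) : w e e = 0 := by
  have h := diagAll
  rw [List.all_eq_true] at h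
  have h1 := h (eidx e) (List.mem_range.2 (eidx_lt e))
  exact Nat.eq_of_beq_eq_true h1

/-- the hash -/
def hash (m : Finset (Sym2 V)) : ℕ := ∑ e ∈ m, ∑ f ∈ m, w e f

lemma hash_insert (e : Sym2 V) (m : Finset (Sym2 V)) (he : e ∉ m) :
    hash (insert e m) = hash m + 2 * ∑ f ∈ m, w e f := by
  unfold hash
  rw [Finset.sum_insert he]
  have h1 : ∀ x ∈ m, ∑ f ∈ insert e m, w x f = w x e + ∑ f ∈ m, w x f := fun x _ =>
    Finset.sum_insert he
  rw [Finset.sum_congr rfl h1, Finset.sum_insert he, w_self, Finset.sum_add_distrib]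
  have h2 : ∑ x ∈ m, w x e = ∑ x ∈ m, w e x := Finset.sum_congr rfl (fun x _ => w_symm x e)
  rw [h2]; ring

/-- perfect matchings -/
def IsPM (m : Finset (Sym2 V)) : Prop := (∀ e ∈ m, ¬ e.IsDiag) ∧ ∀ v : V, ∃! e, e ∈ m ∧ v ∈ e

def Good (m : Finset (Sym2 V)) : Prop := IsPM m ∧ mask.testBit (hash m / 2) = true

/-- number of good perfect matchings containing the edges `es` -/
noncomputable def F (es : Finset (Sym2 V)) : ℕ := {m | Good m ∧ es ⊆ m}.ncard

/-! ### Group invariance -/

def Inv (g : Equiv.Perm V) : Prop := ∀ e f, w (e.map g) (f.map g) = w e f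

lemma Inv.mul {g h : Equiv.Perm V} (hg : Inv g) (hh : Inv h) : Inv (g * h) := by
  intro e f
  have := hg (e.map h) (f.map h)
  rw [Sym2.map_map, Sym2.map_map] at this
  rw [← hh e f, ← this]; rfl

lemma Inv.one : Inv 1 := by
  intro e f
  have : (⇑(1 : Equiv.Perm V)) = id := rfl
  rw [this, Sym2.map_id]; rfl

lemma map_inv_map (g : Equiv.Perm V) (e : Sym2 V) : (e.map (g⁻¹ : Equiv.Perm V)).map g = e := by
  rw [Sym2.map_map]
  have : (⇑g ∘ ⇑(g⁻¹ : Equiv.Perm V)) = id := by funext x; simp
  rw [this, Sym2.map_id]; rfl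

lemma map_map_inv (g : Equiv.Perm V) (e : Sym2 V) : (e.map g).map (g⁻¹ : Equiv.Perm V) = e := by
  rw [Sym2.map_map]
  have : (⇑(g⁻¹ : Equiv.Perm V) ∘ ⇑g) = id := by funext x; simp
  rw [this, Sym2.map_id]; rfl

lemma Inv.inv {g : Equiv.Perm V} (hg : Inv g) : Inv g⁻¹ := by
  intro e f
  have := hg (e.map (g⁻¹ : Equiv.Perm V)) (f.map (g⁻¹ : Equiv.Perm V))
  rw [map_inv_map, map_inv_map] at this
  exact this.symm

/-- image of a set of edges -/
def im (g : Equiv.Perm V) (m : Finset (Sym2 V)) : Finset (Sym2 V) := m.image (Sym2.map g)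

lemma mapg_inj (g : Equiv.Perm V) : Function.Injective (Sym2.map g) :=
  Sym2.map.injective g.injective

lemma im_im_inv (g : Equiv.Perm V) (m : Finset (Sym2 V)) : im g (im g⁻¹ m) = m := by
  unfold im
  rw [Finset.image_image]
  have : (Sym2.map ⇑g ∘ Sym2.map ⇑(g⁻¹ : Equiv.Perm V)) = id := by
    funext e; exact map_inv_map g e
  rw [this, Finset.image_id]

lemma im_inv_im (g : Equiv.Perm V) (m : Finset (Sym2 V)) : im g⁻¹ (im g m) = m := by
  unfold im
  rw [Finset.image_image]
  have : (Sym2.map ⇑(g⁻¹ : Equiv.Perm V) ∘ Sym2.map ⇑g) = id := by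
    funext e; exact map_map_inv g e
  rw [this, Finset.image_id]

lemma im_inj (g : Equiv.Perm V) : Function.Injective (im g) := by
  intro a b h
  rw [← im_inv_im g a, h, im_inv_im]

lemma hash_im {g : Equiv.Perm V} (hg : Inv g) (m : Finset (Sym2 V)) : hash (im g m) = hash m := by
  unfold hash im
  rw [Finset.sum_image (fun x _ y _ h => mapg_inj g h)]
  refine Finset.sum_congr rfl (fun e _ => ?_)
  rw [Finset.sum_image (fun x _ y _ h => mapg_inj g h)]
  exact Finset.sum_congr rfl (fun f _ => hg e f)

lemma IsPM_im (g : Equiv.Perm V) {m : Finset (Sym2 V)} (h : IsPM m) : IsPM (im g m) := by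
  refine ⟨?_, ?_⟩
  · intro e he
    obtain ⟨e', he', rfl⟩ := Finset.mem_image.1 he
    rw [Sym2.isDiag_map g.injective]
    exact h.1 e' he'
  · intro v
    obtain ⟨e, ⟨he, hv⟩, hu⟩ := h.2 (g⁻¹ v)
    refine ⟨e.map g, ⟨Finset.mem_image_of_mem _ he, ?_⟩, ?_⟩
    · rw [Sym2.mem_map]
      exact ⟨g⁻¹ v, hv, by simp⟩
    · rintro f ⟨hf, hvf⟩
      obtain ⟨f', hf', rfl⟩ := Finset.mem_image.1 hf
      rw [Sym2.mem_map] at hvf
      obtain ⟨a, ha, hav⟩ := hvf
      have : f' = e := hu f' ⟨hf', by rw [← hav]; simpa using ha⟩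
      rw [this]

lemma Good_im {g : Equiv.Perm V} (hg : Inv g) {m : Finset (Sym2 V)} (h : Good m) :
    Good (im g m) := by
  refine ⟨IsPM_im g h.1, ?_⟩
  rw [hash_im hg]; exact h.2

lemma F_im {g : Equiv.Perm V} (hg : Inv g) (es : Finset (Sym2 V)) : F (im g es) = F es := by
  unfold F
  have : {m | Good m ∧ im g es ⊆ m} = (im g) '' {m | Good m ∧ es ⊆ m} := by
    ext m
    constructor
    · rintro ⟨h1, h2⟩
      refine ⟨im g⁻¹ m, ⟨Good_im hg.inv h1, ?_⟩, im_im_inv g m⟩
      rw [← im_inv_im g es]
      exact Finset.image_subset_image h2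
    · rintro ⟨m', ⟨h1, h2⟩, rfl⟩
      exact ⟨Good_im hg h1, Finset.image_subset_image h2⟩
  rw [this, Set.ncard_image_of_injective _ (im_inj g)]

/-! ### The recursion -/

lemma F_full (es : Finset (Sym2 V)) (hes : IsPM es) :
    F es = if mask.testBit (hash es / 2) then 1 else 0 := by
  unfold F
  have key : ∀ m, IsPM m → es ⊆ m → m = es := by
    intro m hm hsub
    apply Finset.Subset.antisymm _ hsub
    intro e he
    induction e using Sym2.ind with
    | _ a b =>
      obtain ⟨f, ⟨hf, haf⟩, _⟩ := hes.2 a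
      obtain ⟨k, _, hu⟩ := hm.2 a
      have h1 := hu f ⟨hsub hf, haf⟩
      have h2 := hu s(a, b) ⟨he, by simp⟩
      rw [h2, ← h1]; exact hf
  by_cases hb : mask.testBit (hash es / 2) = true
  · rw [if_pos hb]
    have : {m | Good m ∧ es ⊆ m} = {es} := by
      ext m
      simp only [Set.mem_ofPred_eq, Set.mem_singleton_iff]
      constructor
      · rintro ⟨h1, h2⟩
        exact key m h1.1 h2
      · rintro rfl
        exact ⟨⟨hes, hb⟩, Finset.Subset.refl _⟩
    rw [this, Set.ncard_singleton]
  · rw [if_neg hb]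
    have : {m | Good m ∧ es ⊆ m} = ∅ := by
      ext m
      simp only [Set.mem_ofPred_eq, Set.mem_empty_iff_false, iff_false]
      rintro ⟨h1, h2⟩
      have := key m h1.1 h2
      subst this
      exact hb h1.2
    rw [this, Set.ncard_empty]

lemma F_step (es : Finset (Sym2 V)) (x : V) (rest : List V) (hnd : (x :: rest).Nodup)
    (hcov : ∀ v, v ∈ x :: rest ↔ ∀ e ∈ es, v ∉ e) :
    F es = (rest.map (fun y => F (insert s(x, y) es))).sum := by
  classical
  have hnd' : rest.Nodup := (List.nodup_cons.1 hnd).2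
  have hxr : x ∉ rest := (List.nodup_cons.1 hnd).1
  rw [← List.sum_toFinset _ hnd']
  unfold F
  have huni : {m | Good m ∧ es ⊆ m} =
      ⋃ y ∈ rest.toFinset, {m | Good m ∧ insert s(x, y) es ⊆ m} := by
    ext m
    simp only [Set.mem_ofPred_eq, Set.mem_iUnion, exists_prop, List.mem_toFinset]
    constructor
    · rintro ⟨h1, h2⟩
      obtain ⟨e, ⟨he, hxe⟩, hu⟩ := h1.1.2 x
      obtain ⟨y, rfl⟩ := Sym2.mem_iff_exists.1 hxe
      have hxy : x ≠ y := by
        have := h1.1.1 _ he
        rwa [Sym2.mk_isDiag_iff] at this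
      have hy : y ∈ x :: rest := by
        rw [hcov]
        intro f hf hyf
        obtain ⟨k, _, hk⟩ := h1.1.2 y
        have e1 := hk f ⟨h2 hf, hyf⟩
        have e2 := hk s(x, y) ⟨he, by simp⟩
        have : f = s(x, y) := by rw [e1, e2]
        have hx : x ∈ x :: rest := by simp
        rw [hcov] at hx
        exact hx f hf (by rw [this]; simp)
      have hy' : y ∈ rest := by
        rcases List.mem_cons.1 hy with h | h
        · exact absurd h.symm hxy
        · exact h
      refine ⟨y, hy', h1, ?_⟩
      intro f hf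
      rcases Finset.mem_insert.1 hf with h | h
      · rw [h]; exact he
      · exact h2 h
    · rintro ⟨y, hy, h1, h2⟩
      exact ⟨h1, fun f hf => h2 (Finset.mem_insert_of_mem hf)⟩
  rw [huni]
  have hdisj : (rest.toFinset : Set V).PairwiseDisjoint
      (fun y => {m | Good m ∧ insert s(x, y) es ⊆ m}) := by
    intro y _ z _ hyz
    rw [Function.onFun, Set.disjoint_left]
    rintro m ⟨h1, h2⟩ ⟨_, h4⟩
    apply hyz
    obtain ⟨k, _, hk⟩ := h1.1.2 x
    have e1 := hk s(x, y) ⟨h2 (Finset.mem_insert_self _ _), by simp⟩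
    have e2 := hk s(x, z) ⟨h4 (Finset.mem_insert_self _ _), by simp⟩
    have : s(x, y) = s(x, z) := by rw [e1, e2]
    exact Sym2.congr_right.1 this
  have h := (rest.toFinset.finite_toSet).ncard_biUnion
    (s := fun y => {m | Good m ∧ insert s(x, y) es ⊆ m}) (fun _ _ => Set.toFinite _) hdisj
  rw [finsum_mem_coe_finset] at h
  rw [← h]
  congr 1

/-! ### Correctness of the counting program -/

lemma cnt_eq (n : ℕ) : ∀ (av : List V) (es : Finset (Sym2 V)) (L : List ℕ) (h : ℕ),
    av.length = 2 * n → av.Pairwise (· < ·) → (∀ v, v ∈ av ↔ ∀ e ∈ es, v ∉ e) →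
    (∀ e ∈ es, ¬ e.IsDiag) → (∀ v e f, e ∈ es → f ∈ es → v ∈ e → v ∈ f → e = f) →
    (∀ i, newW i L = ∑ f ∈ es, wN i (eidx f)) → hash es = 2 * h →
    F es = cnt n (av.map Fin.val) L h := by
  induction n with
  | zero =>
    intro av es L h hlen hsort hcov hdiag huniq hL hh
    have hav : av = [] := List.length_eq_zero_iff.1 (by simpa using hlen)
    subst hav
    have hpm : IsPM es := by
      refine ⟨hdiag, fun v => ?_⟩
      have := (hcov v).not
      simp only [List.not_mem_nil, not_false_eq_true, true_iff, not_forall, not_not] at this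
      obtain ⟨e, he, hv⟩ := this
      exact ⟨e, ⟨he, hv⟩, fun f hf => huniq v f e hf.1 he hf.2 hv⟩
    rw [F_full es hpm, hh, Nat.mul_div_cancel_left _ (by norm_num)]
    rfl
  | succ n ih =>
    intro av es L h hlen hsort hcov hdiag huniq hL hh
    match av, hlen, hsort, hcov with
    | [], hlen, _, _ => simp at hlen
    | x :: rest, hlen, hsort, hcov =>
      have hnd : (x :: rest).Nodup := hsort.imp (fun h => ne_of_lt h)
      have hxr : x ∉ rest := (List.nodup_cons.1 hnd).1
      have hndr : rest.Nodup := (List.nodup_cons.1 hnd).2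
      rw [F_step es x rest hnd hcov]
      have hx : ∀ e ∈ es, x ∉ e := (hcov x).1 (by simp)
      show _ = ((rest.map Fin.val).map _).sum
      rw [List.map_map]
      congr 1
      apply List.map_congr_left
      intro y hy
      have hxy : x < y := (List.pairwise_cons.1 hsort).1 y hy
      have hsr : rest.Pairwise (· < ·) := (List.pairwise_cons.1 hsort).2
      have hyc : ∀ e ∈ es, y ∉ e := (hcov y).1 (by simp [hy])
      have heidx : eidx s(x, y) = 14 * x.val + y.val := by
        rw [eidx_mk]; unfold eN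
        have : x.val < y.val := hxy
        rw [min_eq_left this.le, max_eq_right this.le]
      have hnotin : s(x, y) ∉ es := fun hin => hx _ hin (by simp)
      have herase : ((rest.map Fin.val).erase y.val) = (rest.erase y).map Fin.val := by
        rw [List.map_erase Fin.val_injective]
      show _ = cnt n ((rest.map Fin.val).erase y.val) ((14 * x.val + y.val) :: L)
        (h + newW (14 * x.val + y.val) L)
      rw [herase]
      apply ih
      · rw [List.length_erase_of_mem hy]
        simp only [List.length_cons] at hlen; omega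
      · exact hsr.sublist List.erase_sublist
      · intro v
        rw [hndr.mem_erase_iff]
        constructor
        · rintro ⟨h1, h2⟩ e he
          rcases Finset.mem_insert.1 he with h3 | h3
          · rw [h3, Sym2.mem_iff]
            rintro (h4 | h4)
            · exact hxr (h4 ▸ h2)
            · exact h1 h4
          · exact (hcov v).1 (by simp [h2]) e h3
        · intro h1
          have h2 := h1 s(x, y) (Finset.mem_insert_self _ _)
          rw [Sym2.mem_iff, not_or] at h2
          refine ⟨h2.2, ?_⟩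
          have h3 : v ∈ x :: rest := (hcov v).2 (fun e he => h1 e (Finset.mem_insert_of_mem he))
          rcases List.mem_cons.1 h3 with h4 | h4
          · exact absurd h4 h2.1
          · exact h4
      · intro e he
        rcases Finset.mem_insert.1 he with h3 | h3
        · rw [h3, Sym2.mk_isDiag_iff]; exact ne_of_lt hxy
        · exact hdiag e h3
      · intro v e f he hf hve hvf
        rcases Finset.mem_insert.1 he with h3 | h3 <;> rcases Finset.mem_insert.1 hf with h4 | h4
        · rw [h3, h4]
        · exfalso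
          rw [h3, Sym2.mem_iff] at hve
          rcases hve with rfl | rfl
          · exact hx f h4 hvf
          · exact hyc f h4 hvf
        · exfalso
          rw [h4, Sym2.mem_iff] at hvf
          rcases hvf with rfl | rfl
          · exact hx e h3 hve
          · exact hyc e h3 hve
        · exact huniq v e f h3 h4 hve hvf
      · intro i
        rw [Finset.sum_insert hnotin, heidx, ← hL i]
        rfl
      · rw [hash_insert _ _ hnotin, hh, mul_add]
        congr 2
        rw [hL]
        refine Finset.sum_congr rfl (fun f _ => ?_)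
        rw [w, heidx]

end Pool.Agent.Helper69.HF
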