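import Pool.Agent.Helper69.HFMain

set_option autoImplicit false

open Finset

namespace Pool.Agent.Helper69.HF

/-- function from an image table -/
def tabFun (g : List ℕ) (x : V) : V := ⟨nth g x.val % 14, Nat.mod_lt _ (by norm_num)⟩

def gTi : List Nat := [12,0,1,2,3,4,5,6,7,8,9,10,11,13]
def gDi : List Nat := [0,7,1,8,2,9,3,10,4,11,5,12,6,13]

def pT : Equiv.Perm V := ⟨tabFun gT, tabFun gTi, by decide, by decide⟩
def pD : Equiv.Perm V := ⟨tabFun gD, tabFun gDi, by decide, by decide⟩
def pS : Equiv.Perm V := ⟨tabFun gS, tabFun gS, by decide, by decide⟩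

lemma inv_of_test (g : List ℕ) (p : Equiv.Perm V) (hp : ∀ x : V, (p x).val = nth g x.val)
    (ht : invT g = true) : Inv p := by
  have key : ∀ a b c d : V, a ≤ b → c ≤ d → w (s(p a, p b)) (s(p c, p d)) = w s(a, b) s(c, d) := by
    intro a b c d hab hcd
    unfold invT at ht
    rw [List.all_eq_true] at ht
    have h1 := ht a.val (List.mem_range.2 a.2)
    rw [List.all_eq_true] at h1
    have h2 := h1 b.val (List.mem_range.2 b.2)
    rw [Bool.or_eq_true] at h2
    rcases h2 with h2 | h2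
    · exfalso
      have : b.val < a.val := by simpa [Nat.blt_eq] using h2
      have h3 : a.val ≤ b.val := hab
      omega
    rw [List.all_eq_true] at h2
    have h3 := h2 c.val (List.mem_range.2 c.2)
    rw [List.all_eq_true] at h3
    have h4 := h3 d.val (List.mem_range.2 d.2)
    rw [Bool.or_eq_true] at h4
    rcases h4 with h4 | h4
    · exfalso
      have : d.val < c.val := by simpa [Nat.blt_eq] using h4
      have h5 : c.val ≤ d.val := hcd
      omega
    have h5 := Nat.eq_of_beq_eq_true h4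
    unfold w
    rw [eidx_mk, eidx_mk, eidx_mk, eidx_mk, hp, hp, hp, hp]
    exact h5
  intro e f
  induction e using Sym2.ind with
  | _ a b =>
  induction f using Sym2.ind with
  | _ c d =>
    rw [Sym2.map_mk, Sym2.map_mk]
    rcases le_total a b with hab | hab <;> rcases le_total c d with hcd | hcd
    · exact key a b c d hab hcd
    · rw [Sym2.eq_swap (a := c) (b := d), Sym2.eq_swap (a := p c) (b := p d)]
      exact key a b d c hab hcd
    · rw [Sym2.eq_swap (a := a) (b := b), Sym2.eq_swap (a := p a) (b := p b)]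
      exact key b a c d hab hcd
    · rw [Sym2.eq_swap (a := c) (b := d), Sym2.eq_swap (a := p c) (b := p d),
        Sym2.eq_swap (a := a) (b := b), Sym2.eq_swap (a := p a) (b := p b)]
      exact key b a d c hab hcd

lemma inv_pT : Inv pT := inv_of_test gT pT (by decide) invT_T
lemma inv_pD : Inv pD := inv_of_test gD pD (by decide) invT_D
lemma inv_pS : Inv pS := inv_of_test gS pS (by decide) invT_S

lemma Inv.pow {g : Equiv.Perm V} (hg : Inv g) (n : ℕ) : Inv (g ^ n) := by
  induction n with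
  | zero => rw [pow_zero]; exact Inv.one
  | succ n ih => rw [pow_succ]; exact ih.mul hg

lemma pS_zero : pS 0 = 13 := by decide

lemma step1a : ∀ p : V, p ≠ 13 → ∃ n : Fin 13, (pT ^ n.val) p = 0 := by decide

lemma step1 (p : V) : ∃ g, Inv g ∧ g p = 13 := by
  by_cases h : p = 13
  · exact ⟨1, Inv.one, by rw [h]; rfl⟩
  · obtain ⟨n, hn⟩ := step1a p h
    exact ⟨pS * pT ^ n.val, inv_pS.mul (inv_pT.pow _), by rw [Equiv.Perm.mul_apply, hn, pS_zero]⟩

lemma pT_fix : ∀ n : Fin 13, (pT ^ n.val) 13 = 13 := by decide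

lemma step2 (q : V) (hq : q ≠ 13) : ∃ g, Inv g ∧ g 13 = 13 ∧ g q = 0 := by
  obtain ⟨n, hn⟩ := step1a q hq
  exact ⟨pT ^ n.val, inv_pT.pow _, pT_fix n, hn⟩

lemma step3a : ∀ r : V, r ≠ 13 → r ≠ 0 → ∃ n : Fin 12, (pD ^ n.val) r = 1 := by decide
lemma pD_fix : ∀ n : Fin 12, (pD ^ n.val) 13 = 13 ∧ (pD ^ n.val) 0 = 0 := by decide

lemma step3 (r : V) (hr : r ≠ 13) (hr0 : r ≠ 0) :
    ∃ g, Inv g ∧ g 13 = 13 ∧ g 0 = 0 ∧ g r = 1 := by
  obtain ⟨n, hn⟩ := step3a r hr hr0
  exact ⟨pD ^ n.val, inv_pD.pow _, (pD_fix n).1, (pD_fix n).2, hn⟩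

lemma threeTrans (p q r : V) (hpq : p ≠ q) (hpr : p ≠ r) (hqr : q ≠ r) :
    ∃ g, Inv g ∧ g p = 13 ∧ g q = 0 ∧ g r = 1 := by
  obtain ⟨g1, h1, h1p⟩ := step1 p
  have hq1 : g1 q ≠ 13 := fun h => hpq (g1.injective (by rw [h1p, h]))
  obtain ⟨g2, h2, h2a, h2q⟩ := step2 (g1 q) hq1
  have hr1 : g2 (g1 r) ≠ 13 := fun h => by
    have : g1 r = 13 := g2.injective (by rw [h, h2a])
    exact hpr (g1.injective (by rw [h1p, this]))
  have hr2 : g2 (g1 r) ≠ 0 := fun h => by
    have : g1 r = g1 q := g2.injective (by rw [h, h2q])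
    exact hqr (g1.injective this.symm)
  obtain ⟨g3, h3, h3a, h3b, h3r⟩ := step3 (g2 (g1 r)) hr1 hr2
  refine ⟨g3 * (g2 * g1), h3.mul (h2.mul h1), ?_, ?_, ?_⟩
  · simp [Equiv.Perm.mul_apply, h1p, h2a, h3a]
  · simp [Equiv.Perm.mul_apply, h2q, h3b]
  · simp [Equiv.Perm.mul_apply, h3r]

/-- the remaining vertices -/
def avV (a b c : V) : List V := (List.finRange 14).filter
  (fun x => Nat.ble 2 x.val && Nat.ble x.val 12 &&
    !(Nat.beq x.val a.val || Nat.beq x.val b.val || Nat.beq x.val c.val))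

lemma avV_map (a b c : V) : (avV a b c).map Fin.val = avN a.val b.val c.val := by
  unfold avV avN
  have : List.range 14 = (List.finRange 14).map Fin.val := by decide
  rw [this, List.filter_map]
  rfl

lemma mem_avV (a b c v : V) : v ∈ avV a b c ↔ v ≠ 13 ∧ v ≠ 0 ∧ v ≠ 1 ∧ v ≠ a ∧ v ≠ b ∧ v ≠ c := by
  unfold avV
  simp only [List.mem_filter, List.mem_finRange, true_and, Bool.and_eq_true, Nat.ble_eq,
    Bool.not_eq_true', Bool.or_eq_false_iff]
  have h : ∀ x y : V, Nat.beq x.val y.val = false ↔ x ≠ y := by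
    intro x y
    rw [← Bool.not_eq_true, Nat.beq_eq]
    exact not_congr Fin.val_inj
  rw [h, h, h]
  have := v.2
  constructor
  · rintro ⟨⟨h1, h2⟩, ⟨h3, h4⟩, h5⟩
    refine ⟨?_, ?_, ?_, h3, h4, h5⟩
    · rintro rfl; exact absurd h2 (by decide)
    · rintro rfl; exact absurd h1 (by decide)
    · rintro rfl; exact absurd h1 (by decide)
  · rintro ⟨h1, h2, h3, h4, h5, h6⟩
    have e1 : v.val ≠ 13 := fun h => h1 (Fin.ext h)
    have e2 : v.val ≠ 0 := fun h => h2 (Fin.ext h)
    have e3 : v.val ≠ 1 := fun h => h3 (Fin.ext h)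
    exact ⟨⟨by omega, by omega⟩, ⟨h4, h5⟩, h6⟩

lemma sorted_avV (a b c : V) : (avV a b c).Pairwise (· < ·) :=
  (List.pairwise_lt_finRange 14).sublist List.filter_sublist

lemma length_avV (a b c : V) (ha13 : a ≠ 13) (ha0 : a ≠ 0) (ha1 : a ≠ 1) (hb13 : b ≠ 13)
    (hb0 : b ≠ 0) (hb1 : b ≠ 1) (hc13 : c ≠ 13) (hc0 : c ≠ 0) (hc1 : c ≠ 1)
    (hab : a ≠ b) (hac : a ≠ c) (hbc : b ≠ c) : (avV a b c).length = 8 := by
  have hnd : (avV a b c).Nodup := (sorted_avV a b c).imp (fun h => ne_of_lt h)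
  rw [← List.toFinset_card_of_nodup hnd]
  have : (avV a b c).toFinset = Finset.univ \ {13, 0, 1, a, b, c} := by
    ext v
    rw [List.mem_toFinset, mem_avV]
    simp only [Finset.mem_sdiff, Finset.mem_univ, true_and, Finset.mem_insert,
      Finset.mem_singleton, not_or]
  rw [this, Finset.card_sdiff, Finset.inter_univ, Finset.card_univ, Fintype.card_fin]
  have h6 : ({13, 0, 1, a, b, c} : Finset V).card = 6 := by
    rw [Finset.card_insert_of_notMem, Finset.card_insert_of_notMem, Finset.card_insert_of_notMem,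
      Finset.card_insert_of_notMem, Finset.card_insert_of_notMem, Finset.card_singleton]
    all_goals simp only [Finset.mem_insert, Finset.mem_singleton, not_or]
    · exact hbc
    · exact ⟨hab, hac⟩
    · exact ⟨ha1.symm, hb1.symm, hc1.symm⟩
    · exact ⟨by decide, ha0.symm, hb0.symm, hc0.symm⟩
    · exact ⟨by decide, by decide, ha13.symm, hb13.symm, hc13.symm⟩
  rw [h6]

lemma F_case (a b c : V) (ha13 : a ≠ 13) (ha0 : a ≠ 0) (ha1 : a ≠ 1) (hb13 : b ≠ 13)
    (hb0 : b ≠ 0) (hb1 : b ≠ 1) (hc13 : c ≠ 13) (hc0 : c ≠ 0) (hc1 : c ≠ 1)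
    (hab : a ≠ b) (hac : a ≠ c) (hbc : b < c) : F {s(b, c), s(1, a), s(13, 0)} = 54 := by
  have hN1 : s(1, a) ∉ ({s(13, 0)} : Finset (Sym2 V)) := by
    rw [Finset.mem_singleton, Sym2.eq_iff]
    rintro (⟨h1, _⟩ | ⟨h1, _⟩) <;> exact absurd h1 (by decide)
  have hN2 : s(b, c) ∉ ({s(1, a), s(13, 0)} : Finset (Sym2 V)) := by
    rw [Finset.mem_insert, Finset.mem_singleton, Sym2.eq_iff, Sym2.eq_iff]
    rintro ((⟨h1, _⟩ | ⟨_, h1⟩) | (⟨h1, _⟩ | ⟨h1, _⟩))
    · exact hb1 h1
    · exact hc1 h1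
    · exact hb13 h1
    · exact hb0 h1
  have hnl : ∀ i, newW i [14 * b.val + c.val, 14 + a.val, 13] =
      ∑ f ∈ ({s(b, c), s(1, a), s(13, 0)} : Finset (Sym2 V)), wN i (eidx f) := by
    intro i
    rw [Finset.sum_insert hN2, Finset.sum_insert hN1, Finset.sum_singleton]
    have e1 : eidx s(b, c) = 14 * b.val + c.val := by
      rw [eidx_mk]; unfold eN
      have : b.val < c.val := hbc
      rw [min_eq_left this.le, max_eq_right this.le]
    have e2 : eidx s(1, a) = 14 + a.val := by
      rw [eidx_mk]; unfold eN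
      have h0 : a.val ≠ 0 := fun h => ha0 (Fin.ext h)
      have : (1 : V).val ≤ a.val := by show 1 ≤ a.val; omega
      rw [min_eq_left this, max_eq_right this]; rfl
    have e3 : eidx s((13 : V), 0) = 13 := by decide
    rw [e1, e2, e3]
    rfl
  have hh : hash {s(b, c), s(1, a), s(13, 0)} =
      2 * (newW (14*b.val+c.val) [14+a.val,13] + newW (14+a.val) [13]) := by
    rw [hash_insert _ _ hN2, hash_insert _ _ hN1]
    have e1 : eidx s(b, c) = 14 * b.val + c.val := by
      rw [eidx_mk]; unfold eN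
      have : b.val < c.val := hbc
      rw [min_eq_left this.le, max_eq_right this.le]
    have e2 : eidx s(1, a) = 14 + a.val := by
      rw [eidx_mk]; unfold eN
      have h0 : a.val ≠ 0 := fun h => ha0 (Fin.ext h)
      have : (1 : V).val ≤ a.val := by show 1 ≤ a.val; omega
      rw [min_eq_left this, max_eq_right this]; rfl
    have e3 : eidx s((13 : V), 0) = 13 := by decide
    have h0 : hash ({s(13, 0)} : Finset (Sym2 V)) = 0 := by
      unfold hash
      rw [Finset.sum_singleton, Finset.sum_singleton, w_self]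
    rw [h0, Finset.sum_insert hN1, Finset.sum_singleton, Finset.sum_singleton]
    simp only [w, e1, e2, e3, newW]
    ring
  rw [cnt_eq 4 (avV a b c) {s(b, c), s(1, a), s(13, 0)} [14 * b.val + c.val, 14 + a.val, 13]
    (newW (14*b.val+c.val) [14+a.val,13] + newW (14+a.val) [13])
    (length_avV a b c ha13 ha0 ha1 hb13 hb0 hb1 hc13 hc0 hc1 hab hac (ne_of_lt hbc))
    (sorted_avV a b c) ?_ ?_ ?_ hnl hh, avV_map]
  · have h := checkAll
    rw [List.all_eq_true] at h
    have a13 : a.val ≠ 13 := fun h => ha13 (Fin.ext h)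
    have a0 : a.val ≠ 0 := fun h => ha0 (Fin.ext h)
    have a1 : a.val ≠ 1 := fun h => ha1 (Fin.ext h)
    have b13 : b.val ≠ 13 := fun h => hb13 (Fin.ext h)
    have b0 : b.val ≠ 0 := fun h => hb0 (Fin.ext h)
    have b1 : b.val ≠ 1 := fun h => hb1 (Fin.ext h)
    have c13 : c.val ≠ 13 := fun h => hc13 (Fin.ext h)
    have nab : a.val ≠ b.val := fun h => hab (Fin.ext h)
    have nac : a.val ≠ c.val := fun h => hac (Fin.ext h)
    have lbc : b.val < c.val := hbc
    have h1 := h a.val (List.mem_range.2 (by have := a.2; omega))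
    rw [List.all_eq_true] at h1
    have h2 := h1 b.val (List.mem_range.2 (by have := b.2; omega))
    rw [List.all_eq_true] at h2
    have h3 := h2 c.val (List.mem_range.2 (by have := c.2; omega))
    rw [Bool.or_eq_true] at h3
    rcases h3 with h3 | h3
    · exfalso
      have hc : condC a.val b.val c.val = true := by
        unfold condC
        simp only [Bool.and_eq_true, Nat.ble_eq, Bool.not_eq_true']
        refine ⟨⟨⟨⟨by omega, by omega⟩, ?_⟩, ?_⟩, ?_⟩
        · rw [← Bool.not_eq_true, Nat.beq_eq]; exact nab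
        · rw [← Bool.not_eq_true, Nat.beq_eq]; exact nac
        · rw [Nat.blt_eq]; exact lbc
      rw [hc] at h3
      exact absurd h3 (by decide)
    · exact Nat.eq_of_beq_eq_true h3
  · intro v
    rw [mem_avV]
    constructor
    · rintro ⟨h1, h2, h3, h4, h5, h6⟩ e he
      simp only [Finset.mem_insert, Finset.mem_singleton] at he
      rcases he with rfl | rfl | rfl
      · rw [Sym2.mem_iff, not_or]; exact ⟨h5, h6⟩
      · rw [Sym2.mem_iff, not_or]; exact ⟨h3, h4⟩
      · rw [Sym2.mem_iff, not_or]; exact ⟨h1, h2⟩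
    · intro h
      have h1 := h s(b, c) (by simp)
      have h2 := h s(1, a) (by simp)
      have h3 := h s(13, 0) (by simp)
      rw [Sym2.mem_iff, not_or] at h1 h2 h3
      exact ⟨h3.1, h3.2, h2.1, h2.2, h1.1, h1.2⟩
  · intro e he
    simp only [Finset.mem_insert, Finset.mem_singleton] at he
    rcases he with rfl | rfl | rfl
    · rw [Sym2.mk_isDiag_iff]; exact ne_of_lt hbc
    · rw [Sym2.mk_isDiag_iff]; exact ha1.symm
    · rw [Sym2.mk_isDiag_iff]; decide
  · intro v e f he hf hve hvf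
    simp only [Finset.mem_insert, Finset.mem_singleton] at he hf
    rcases he with rfl | rfl | rfl <;> rcases hf with rfl | rfl | rfl <;>
      first
      | rfl
      | (exfalso
         rw [Sym2.mem_iff] at hve hvf
         rcases hve with rfl | rfl <;> rcases hvf with h | h <;>
           first
           | exact ha13 h
           | exact ha13 h.symm
           | exact ha0 h
           | exact ha0 h.symm
           | exact hb13 h
           | exact hb13 h.symm
           | exact hb0 h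
           | exact hb0 h.symm
           | exact hc13 h
           | exact hc13 h.symm
           | exact hc0 h
           | exact hc0 h.symm
           | exact hb1 h
           | exact hb1 h.symm
           | exact hc1 h
           | exact hc1 h.symm
           | exact hab h
           | exact hab h.symm
           | exact hac h
           | exact hac h.symm
           | exact absurd h (by decide))

theorem F_three (p q r u x y : V) (h : [p, q, r, u, x, y].Nodup) :
    F {s(x, y), s(r, u), s(p, q)} = 54 := by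
  simp only [List.nodup_cons, List.mem_cons, List.not_mem_nil, or_false, not_or,
    not_false_eq_true, List.nodup_nil, and_true] at h
  obtain ⟨⟨hpq, hpr, hpu, hpx, hpy⟩, ⟨hqr, hqu, hqx, hqy⟩, ⟨hru, hrx, hry⟩, ⟨hux, huy⟩, hxy⟩ := h
  obtain ⟨g, hg, hgp, hgq, hgr⟩ := threeTrans p q r hpq hpr hqr
  have e := F_im hg {s(x, y), s(r, u), s(p, q)}
  have e2 : im g {s(x, y), s(r, u), s(p, q)} = {s(g x, g y), s(1, g u), s(13, 0)} := by
    unfold im
    rw [Finset.image_insert, Finset.image_insert, Finset.image_singleton, Sym2.map_mk, Sym2.map_mk,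
      Sym2.map_mk, hgp, hgq, hgr]
  rw [← e, e2]
  have n13 : ∀ z, p ≠ z → g z ≠ 13 := fun z hz h => hz (g.injective (by rw [hgp, h]))
  have n0 : ∀ z, q ≠ z → g z ≠ 0 := fun z hz h => hz (g.injective (by rw [hgq, h]))
  have n1 : ∀ z, r ≠ z → g z ≠ 1 := fun z hz h => hz (g.injective (by rw [hgr, h]))
  have nu : ∀ z, u ≠ z → g u ≠ g z := fun z hz h => hz (g.injective h)
  rcases lt_or_gt_of_ne (fun h => hxy (g.injective h) : g x ≠ g y) with hlt | hlt
  · exact F_case (g u) (g x) (g y) (n13 u hpu) (n0 u hqu) (n1 u hru) (n13 x hpx) (n0 x hqx)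
      (n1 x hrx) (n13 y hpy) (n0 y hqy) (n1 y hry) (nu x hux) (nu y huy) hlt
  · rw [Sym2.eq_swap (a := g x) (b := g y)]
    exact F_case (g u) (g y) (g x) (n13 u hpu) (n0 u hqu) (n1 u hru) (n13 y hpy) (n0 y hqy)
      (n1 y hry) (n13 x hpx) (n0 x hqx) (n1 x hrx) (nu y huy) (nu x hux) hlt

end Pool.Agent.Helper69.HF
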